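import Pool.Agent.W_4481e3_q87.GoR
import Pool.Agent.W_4481e3_tab.T7

/-!
Tree s23o7, data 7.
-/

namespace Pool.Agent.W_4481e3_rt.s23o7

open Pool.Agent.W_4481e3_q25.EvR

theorem k142 : ckO Pool.Agent.W_4481e3_tab.T7.tab 353920 637120 33554432 2097152 2965504 4194304 9 2621440 524288 3670016 524288 514617981 526897595 1012530 954532 268413171 268446568 16777216 16777216 4236248 4236248 0x103000c04000c03000c04000c21203000c04000c04000c05000c204000c06000c21204000c04000c05000c106000c206000c07000c06000c08000c21212121 = true := by decide +kernel

theorem k145 : ckO Pool.Agent.W_4481e3_tab.T7.tab 353920 637120 33554432 2097152 2965504 4194304 6 2621440 524288 3670016 524288 512717995 527852127 949993 1846526 268412596 268439326 16777216 16777216 4236248 4236248 0x103000c03000c104000c0500ec205051c04000c05051c2105051c05051c05051c21212 = true := by decide +kernel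

theorem k147 : ckO Pool.Agent.W_4481e3_tab.T7.tab 353920 637120 33554432 2097152 2965504 4194304 2 2621440 524288 3670016 524288 513667988 524159075 1899986 1846526 268412596 268439326 16777216 16777216 4236248 4236248 0x103000c03000c1 = true := by decide +kernel

theorem k149 : ckO Pool.Agent.W_4481e3_tab.T7.tab 353920 637120 33554432 2097152 2965504 4194304 6 2621440 524288 3670016 524288 509868016 526005601 1899986 3693051 268412596 268439326 16777216 16777216 4236248 4236248 0x102000c02000c02000c03000c03000c04000c21212 = true := by decide +kernel

theorem k154 : ckO Pool.Agent.W_4481e3_tab.T7.tab 353920 637120 33554432 2097152 2965504 4194304 5 2621440 524288 3670016 524288 515354132 515354132 7172260 7172260 268435456 268435456 16777216 16777216 4236248 4236248 0x102000c02000c02000c1202000c02000c03000c202000c03000c2121 = true := by decide +kernel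

theorem k157 : ckO Pool.Agent.W_4481e3_tab.T7.tab 353920 637120 33554432 2097152 2965504 4194304 5 2621440 524288 3670016 524288 522526392 493837352 14344520 14344520 268435456 268435456 16777216 16777216 4236248 4236248 0x100000c00026c00013c02000c21200026c01006c01006c121 = true := by decide +kernel

theorem k159 : ckO Pool.Agent.W_4481e3_tab.T7.tab 353920 637120 33554432 2097152 2965504 4194304 10 2621440 524288 3670016 524288 493837352 508181872 14344520 28689040 268435456 268435456 16777216 16777216 4236248 4236248 0x100000c00000c00000c00000c00000c02000c12100013c00026c02000c02000c2100013c00026c202000c02000c02000c2102000c0309fc0309fc212121212 = true := by decide +kernel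

end Pool.Agent.W_4481e3_rt.s23o7
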